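import Pool.Agent.Q98.TP.Count
import Pool.Agent.Q98.TP.Upper

/-!
# MP_81f2fa_al, Q1: the maximal number of monomials of trace polynomials grows like `n³`
-/

set_option autoImplicit false

namespace Pool.Agent.Results.MP_81f2fa_al.CubicGrowth

open Pool.Agent.Q98.TP

/-- the possible values of `N(w)`, the number of monomials of the trace polynomial of `w`, for
cyclically reduced words `w` of length `n` -/
def Values (n : ℕ) : Set ℕ := {k | ∃ w : FreeGroup (Fin 2),
  FreeGroup.IsCyclicallyReduced w.toWord ∧ w.toWord.length = n ∧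
    ∃ f : MvPolynomial (Fin 3) ℤ, IsTracePoly w f ∧ f.support.card = k}

/-- `M(n)`, the maximum of `N(w)` -/
noncomputable def M (n : ℕ) : ℕ := sSup (Values n)

lemma values_finite (n : ℕ) : (Values n).Finite := by
  classical
  have h1 : {w : FreeGroup (Fin 2) | w.toWord.length = n}.Finite := by
    refine Set.Finite.of_finite_image (f := FreeGroup.toWord) ?_
      FreeGroup.toWord_injective.injOn
    refine (List.finite_length_eq (Fin 2 × Bool) n).subset ?_
    rintro _ ⟨w, hw, rfl⟩
    exact hw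
  choose F hF using TaskExistsProof.main
  refine (h1.image fun w => (F w).support.card).subset ?_
  rintro k ⟨w, _, hw, f, hf, rfl⟩
  refine ⟨w, hw, ?_⟩
  show (F w).support.card = f.support.card
  rw [TaskUniqueProof.main w f (F w) hf (hF w)]

theorem lower (n : ℕ) (hn : 4 ≤ n) : n ^ 3 ≤ 1728 * M n := by
  obtain ⟨r, hr⟩ : ∃ r, n / 4 = r + 1 := ⟨n / 4 - 1, by omega⟩
  have hj : n % 4 < 4 := Nat.mod_lt _ (by norm_num)
  have hred := wd_cyc r (n % 4) hj
  have hw : (FreeGroup.mk (wd (r + 1) (tl (n % 4)))).toWord = wd (r + 1) (tl (n % 4)) := by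
    rw [FreeGroup.toWord_mk, hred.1.reduce_eq]
  have hlen : (tl (n % 4)).length = n % 4 := by
    interval_cases n % 4 <;> rfl
  have hmem : (fp r (n % 4)).support.card ∈ Values n := by
    refine ⟨FreeGroup.mk (wd (r + 1) (tl (n % 4))), by rw [hw]; exact hred, ?_, _,
      fp_spec r _ hj, rfl⟩
    rw [hw, wd_length, hlen]
    omega
  have h1 := le_csSup (values_finite n).bddAbove hmem
  have h2 := fp_count r (n % 4) hj
  have h3 : n ≤ 12 * ((r + 1) / 3 + 1) := by omega
  calc n ^ 3 ≤ (12 * ((r + 1) / 3 + 1)) ^ 3 := Nat.pow_le_pow_left h3 3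
    _ = 1728 * ((r + 1) / 3 + 1) ^ 3 := by ring
    _ ≤ 1728 * M n := Nat.mul_le_mul_left _ (h2.trans h1)

/-- `n³ / 1728 ≤ M(n) ≤ (n + 2)³` for all `n ≥ 4`. More precisely: (1) every word `w` in the free
group on `a, b` has exactly one trace polynomial; (2) the set of the values of `N(w)` for cyclically
reduced `w` of length `n` is finite, so `M(n)` is its maximum; (3) `n³ ≤ 1728 M(n)` for all
`n ≥ 4`; (4) `M(n) ≤ (n + 2)³` for all `n`. -/
theorem result :
    (∀ w : FreeGroup (Fin 2), ∃! f : MvPolynomial (Fin 3) ℤ, IsTracePoly w f) ∧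
    (∀ n : ℕ, (Values n).Finite) ∧
    (∀ n : ℕ, 4 ≤ n → n ^ 3 ≤ 1728 * M n) ∧
    (∀ n : ℕ, M n ≤ (n + 2) ^ 3) := by
  refine ⟨fun w => ?_, values_finite, lower, fun n => ?_⟩
  · obtain ⟨f, hf⟩ := TaskExistsProof.main w
    exact ⟨f, hf, fun g hg => TaskUniqueProof.main w g f hg hf⟩
  · rcases Set.eq_empty_or_nonempty (Values n) with h | h
    · rw [M, h, csSup_empty]
      exact Nat.zero_le _
    · refine csSup_le h ?_
      rintro k ⟨w, _, hw, f, hf, rfl⟩
      rw [← hw]
      exact upper hf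

end Pool.Agent.Results.MP_81f2fa_al.CubicGrowth
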